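import Pool.Agent.Helper20.IIC.Stmts

set_option autoImplicit false

/-! # WR: sums over the cone -/

namespace IIC

open Filter Topology Set
open scoped BigOperators

section
variable {d m : ℕ}

theorem wr_natAbs_le (x : Fin d → ℤ) (i : Fin d) : (x i).natAbs ≤ nrm x :=
  Finset.le_sup (f := fun i => (x i).natAbs) (Finset.mem_univ i)

theorem wr_nrm_le {x : Fin d → ℤ} {N : ℕ} : nrm x ≤ N ↔ ∀ i, (x i).natAbs ≤ N := by
  unfold nrm
  simp [Finset.sup_le_iff]

theorem wr_mem_box {x : Fin d → ℤ} {N : ℕ} :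
    x ∈ Finset.Icc (fun _ => -(N : ℤ)) (fun _ => (N : ℤ)) ↔ nrm x ≤ N := by
  rw [Finset.mem_Icc, Pi.le_def, Pi.le_def, wr_nrm_le]
  constructor
  · rintro ⟨h1, h2⟩ i
    have := h1 i
    have := h2 i
    omega
  · intro h
    exact ⟨fun i => by have := h i; omega, fun i => by have := h i; omega⟩

theorem wr_mem_sph {x : Fin d → ℤ} {n : ℕ} : x ∈ sph d n ↔ nrm x = n := by
  unfold sph
  rw [Finset.mem_filter, wr_mem_box]
  exact ⟨fun h => h.2, fun h => ⟨h.le, h⟩⟩

theorem wr_mem_Rg {i₀ : Fin d} {v : Fin d → ℤ} {R n : ℕ} :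
    v ∈ Rg i₀ R n ↔ nrm v ≤ n ∧ Cone i₀ v ∧ (R : ℤ) ≤ v i₀ := by
  classical
  unfold Rg
  simp only [Finset.mem_filter, wr_mem_box]

theorem wr_card1 (i : Fin (m + 2)) (A T : Finset ℤ) :
    (Fintype.piFinset fun j => if j = i then A else T).card = A.card * T.card ^ (m + 1) := by
  rw [Fintype.card_piFinset, ← Finset.mul_prod_erase _ _ (Finset.mem_univ i), if_pos rfl]
  congr 1
  rw [Finset.prod_congr rfl (g := fun _ => T.card)]
  · rw [Finset.prod_const, Finset.card_erase_of_mem (Finset.mem_univ i), Finset.card_univ,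
      Fintype.card_fin]
    rfl
  · intro j hj
    rw [if_neg (Finset.ne_of_mem_erase hj)]

theorem wr_card2 (i j₁ : Fin (m + 2)) (h : j₁ ≠ i) (A B T : Finset ℤ) :
    (Fintype.piFinset fun j => if j = i then A else if j = j₁ then B else T).card =
      A.card * (B.card * T.card ^ m) := by
  rw [Fintype.card_piFinset, ← Finset.mul_prod_erase _ _ (Finset.mem_univ i), if_pos rfl]
  congr 1
  rw [← Finset.mul_prod_erase _ _ (Finset.mem_erase.2 ⟨h, Finset.mem_univ j₁⟩), if_neg h,
    if_pos rfl]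
  congr 1
  rw [Finset.prod_congr rfl (g := fun _ => T.card)]
  · rw [Finset.prod_const, Finset.card_erase_of_mem (Finset.mem_erase.2 ⟨h, Finset.mem_univ j₁⟩),
      Finset.card_erase_of_mem (Finset.mem_univ i), Finset.card_univ, Fintype.card_fin]
    rfl
  · intro j hj
    rw [Finset.mem_erase, Finset.mem_erase] at hj
    rw [if_neg hj.2.1, if_neg hj.1]

theorem wr_card_sph (n : ℕ) :
    (sph (m + 2) n).card ≤ (m + 2) * (2 * (2 * n + 1) ^ (m + 1)) := by
  have hsub : sph (m + 2) n ⊆ Finset.univ.biUnion fun i : Fin (m + 2) =>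
      Fintype.piFinset fun j => if j = i then ({(n : ℤ), -(n : ℤ)} : Finset ℤ)
        else Finset.Icc (-(n : ℤ)) n := by
    intro x hx
    rw [wr_mem_sph] at hx
    have hne : (Finset.univ : Finset (Fin (m + 2))).Nonempty := Finset.univ_nonempty
    obtain ⟨i, -, hi⟩ := Finset.exists_mem_eq_sup Finset.univ hne (fun i => (x i).natAbs)
    rw [Finset.mem_biUnion]
    refine ⟨i, Finset.mem_univ i, ?_⟩
    rw [Fintype.mem_piFinset]
    intro j
    have hi' : (x i).natAbs = n := by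
      rw [← hx]
      exact hi.symm
    split_ifs with hj
    · subst hj
      rw [Finset.mem_insert, Finset.mem_singleton]
      omega
    · rw [Finset.mem_Icc]
      have := wr_natAbs_le x j
      omega
  refine (Finset.card_le_card hsub).trans (Finset.card_biUnion_le.trans ?_)
  refine (Finset.sum_le_sum (g := fun _ => 2 * (2 * n + 1) ^ (m + 1)) fun i _ => ?_).trans ?_
  · rw [wr_card1]
    refine Nat.mul_le_mul (Finset.card_le_two) ?_
    rw [Int.card_Icc]
    apply le_of_eq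
    congr 1
    omega
  · rw [Finset.sum_const, Finset.card_univ, Fintype.card_fin]
    simp

/-- the function `a` and the sums `g`, `f` -/
structure WrA (m : ℕ) (a : ℕ → ℝ) (C1 : ℝ) : Prop where
  anti : ∀ k, a (k + 1) ≤ a k
  pos : ∀ k, 0 < a k
  le_one : ∀ k, a k ≤ 1
  C1pos : 0 < C1
  low : ∀ k : ℕ, 1 ≤ k → 1 ≤ C1 * ((k : ℝ) ^ (m + 1) * a k)

/-- `∑_{k ≤ n} k ^ (m + 1) a(k)` -/
noncomputable def wrg (m : ℕ) (a : ℕ → ℝ) (n : ℕ) : ℝ :=
  ∑ k ∈ Finset.range (n + 1), (k : ℝ) ^ (m + 1) * a k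

/-- `∑_{k ≤ n} k ^ m a(k)` -/
noncomputable def wrf (m : ℕ) (a : ℕ → ℝ) (n : ℕ) : ℝ :=
  ∑ k ∈ Finset.range (n + 1), (k : ℝ) ^ m * a k

variable {a : ℕ → ℝ} {C1 : ℝ}

theorem wr_anti (h : WrA m a C1) {k l : ℕ} (hkl : k ≤ l) : a l ≤ a k :=
  antitone_nat_of_succ_le h.anti hkl

theorem wr_g_succ (n : ℕ) : wrg m a (n + 1) = wrg m a n + ((n : ℝ) + 1) ^ (m + 1) * a (n + 1) := by
  unfold wrg
  rw [Finset.sum_range_succ]
  push_cast
  rfl

theorem wr_g_mono (h : WrA m a C1) : Monotone (wrg m a) := by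
  apply monotone_nat_of_le_succ
  intro n
  rw [wr_g_succ]
  have := h.pos (n + 1)
  have : 0 ≤ ((n : ℝ) + 1) ^ (m + 1) * a (n + 1) := by positivity
  linarith

theorem wr_g_nonneg (h : WrA m a C1) (n : ℕ) : 0 ≤ wrg m a n :=
  Finset.sum_nonneg fun k _ => mul_nonneg (by positivity) (h.pos k).le

theorem wr_g_low (h : WrA m a C1) (n : ℕ) : (n : ℝ) ≤ C1 * wrg m a n := by
  induction n with
  | zero =>
    have := wr_g_nonneg h 0
    have := h.C1pos
    simpa using by positivity
  | succ n ih =>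
    rw [wr_g_succ, mul_add]
    have := h.low (n + 1) (by omega)
    push_cast at this ⊢
    linarith

/-- `f = o(g)` -/
theorem wr_f_le (h : WrA m a C1) (K : ℕ) (hK : 1 ≤ K) (n : ℕ) :
    wrf m a n ≤ (K : ℝ) ^ (m + 1) + wrg m a n / K := by
  have hK0 : (0 : ℝ) < K := by exact_mod_cast hK
  have key : ∀ k ∈ Finset.range (n + 1), (k : ℝ) ^ m * a k ≤
      (if k < K then (K : ℝ) ^ m else 0) + (k : ℝ) ^ (m + 1) * a k / K := by
    intro k _
    have ha := h.pos k
    have ha1 := h.le_one k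
    split_ifs with hk
    · have h1 : (k : ℝ) ^ m ≤ (K : ℝ) ^ m := by
        gcongr
      have h2 : 0 ≤ (k : ℝ) ^ (m + 1) * a k / K := by positivity
      have h3 : (k : ℝ) ^ m * a k ≤ (k : ℝ) ^ m := mul_le_of_le_one_right (by positivity) ha1
      linarith
    · rw [zero_add, le_div_iff₀ hK0, pow_succ]
      have h1 : (K : ℝ) ≤ k := by exact_mod_cast not_lt.mp hk
      have h2 : 0 ≤ (k : ℝ) ^ m * a k := by positivity
      nlinarith [mul_le_mul_of_nonneg_left h1 h2]
  refine (Finset.sum_le_sum key).trans ?_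
  rw [Finset.sum_add_distrib, ← Finset.sum_div]
  unfold wrg
  gcongr
  rw [Finset.sum_ite, Finset.sum_const_zero, add_zero, Finset.sum_const, nsmul_eq_mul, pow_succ']
  gcongr
  have h1 : ((Finset.range (n + 1)).filter (· < K)).card ≤ K := by
    calc ((Finset.range (n + 1)).filter (· < K)).card ≤ (Finset.range K).card := by
          apply Finset.card_le_card
          intro k hk
          rw [Finset.mem_filter] at hk
          exact Finset.mem_range.2 hk.2
      _ = K := Finset.card_range K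
  exact h1

/-- lower bound for the sums over the cone -/
theorem wr_B_low (h : WrA m a C1) (R : ℕ) (hR : 1 ≤ R) (n : ℕ) :
    wrg m a (2 * n + 1) ≤ 2 * (3 * ((m : ℝ) + 2)) ^ (m + 1) *
      (∑ k ∈ Finset.Icc R n, ((k / (m + 2) + 1 : ℕ) : ℝ) ^ (m + 1) * a (2 * k)) +
      wrg m a (2 * R) := by
  have hB0 : ∀ n, 0 ≤ ∑ k ∈ Finset.Icc R n, ((k / (m + 2) + 1 : ℕ) : ℝ) ^ (m + 1) * a (2 * k) :=
    fun n => Finset.sum_nonneg fun k _ => mul_nonneg (by positivity) (h.pos _).le
  induction n with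
  | zero =>
    have h1 := wr_g_mono h (show 2 * 0 + 1 ≤ 2 * R by omega)
    have h2 := hB0 0
    have : 0 ≤ 2 * (3 * ((m : ℝ) + 2)) ^ (m + 1) *
      (∑ k ∈ Finset.Icc R 0, ((k / (m + 2) + 1 : ℕ) : ℝ) ^ (m + 1) * a (2 * k)) := by positivity
    linarith
  | succ n ih =>
    rcases Nat.lt_or_ge (n + 1) R with hn | hn
    · have h1 := wr_g_mono h (show 2 * (n + 1) + 1 ≤ 2 * R by omega)
      have h2 := hB0 (n + 1)
      have : 0 ≤ 2 * (3 * ((m : ℝ) + 2)) ^ (m + 1) *
        (∑ k ∈ Finset.Icc R (n + 1), ((k / (m + 2) + 1 : ℕ) : ℝ) ^ (m + 1) * a (2 * k)) := by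
        positivity
      linarith
    · have e2 : 2 * (n + 1) = 2 * n + 1 + 1 := by ring
      rw [Finset.sum_Icc_succ_top hn, e2, mul_add (2 * (3 * ((m : ℝ) + 2)) ^ (m + 1))]
      have e1 : wrg m a (2 * n + 1 + 1 + 1) = wrg m a (2 * n + 1) +
          ((2 * n + 1 : ℕ) + 1 : ℝ) ^ (m + 1) * a (2 * n + 1 + 1) +
          ((2 * n + 1 + 1 : ℕ) + 1 : ℝ) ^ (m + 1) * a (2 * n + 1 + 1 + 1) := by
        rw [← wr_g_succ, ← wr_g_succ]
      have ha0 := h.pos (2 * n + 1 + 1)
      have ha1 := h.anti (2 * n + 1 + 1)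
      -- the factor
      have hq : ((n : ℝ) + 1) ≤ ((m : ℝ) + 2) * (((n + 1) / (m + 2) + 1 : ℕ) : ℝ) := by
        have h1 := Nat.div_add_mod (n + 1) (m + 2)
        have h2 := Nat.mod_lt (n + 1) (show 0 < m + 2 by omega)
        have h3 : n + 1 ≤ (m + 2) * ((n + 1) / (m + 2) + 1) := by
          rw [mul_add]
          omega
        exact_mod_cast h3
      set q : ℝ := (((n + 1) / (m + 2) + 1 : ℕ) : ℝ) with hqdef
      have hq0 : 0 ≤ q := by positivity
      have e3 : (3 * ((m : ℝ) + 2)) ^ (m + 1) * q ^ (m + 1) = (3 * (((m : ℝ) + 2) * q)) ^ (m + 1) := by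
        rw [← mul_pow]
        ring
      have h1 : ((2 * n + 1 : ℕ) + 1 : ℝ) ^ (m + 1) ≤ (3 * (((m : ℝ) + 2) * q)) ^ (m + 1) := by
        apply pow_le_pow_left₀ (by positivity)
        push_cast
        linarith
      have h2 : ((2 * n + 1 + 1 : ℕ) + 1 : ℝ) ^ (m + 1) ≤ (3 * (((m : ℝ) + 2) * q)) ^ (m + 1) := by
        apply pow_le_pow_left₀ (by positivity)
        push_cast
        have : (0 : ℝ) ≤ n := by positivity
        linarith
      have h3 : ((2 * n + 1 : ℕ) + 1 : ℝ) ^ (m + 1) * a (2 * n + 1 + 1) ≤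
          (3 * (((m : ℝ) + 2) * q)) ^ (m + 1) * a (2 * n + 1 + 1) :=
        mul_le_mul_of_nonneg_right h1 ha0.le
      have h4 : ((2 * n + 1 + 1 : ℕ) + 1 : ℝ) ^ (m + 1) * a (2 * n + 1 + 1 + 1) ≤
          (3 * (((m : ℝ) + 2) * q)) ^ (m + 1) * a (2 * n + 1 + 1) :=
        mul_le_mul h2 ha1 (h.pos _).le (by positivity)
      rw [e1]
      have e4 : 2 * (3 * ((m : ℝ) + 2)) ^ (m + 1) * (q ^ (m + 1) * a (2 * n + 1 + 1)) =
          2 * ((3 * (((m : ℝ) + 2) * q)) ^ (m + 1) * a (2 * n + 1 + 1)) := by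
        rw [← e3]
        ring
      rw [e4]
      linarith

/-! ### the two point function -/

/-- values on the half axis -/
noncomputable def wra (i₀ : Fin (m + 2)) (S : (Fin (m + 2) → ℤ) → ℝ) (k : ℕ) : ℝ :=
  S (Pi.single i₀ (k : ℤ))

/-- the constant of the spheres -/
noncomputable def wrC (m : ℕ) : ℝ := ((m : ℝ) + 2) * (2 * 3 ^ (m + 1))

theorem wr_sph_le (k : ℕ) (hk : 1 ≤ k) :
    ((sph (m + 2) k).card : ℝ) ≤ wrC m * (k : ℝ) ^ (m + 1) := by
  have h1 := wr_card_sph (m := m) k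
  have h2 : ((sph (m + 2) k).card : ℝ) ≤ ((m + 2) * (2 * (2 * k + 1) ^ (m + 1)) : ℕ) := by
    exact_mod_cast h1
  refine h2.trans ?_
  push_cast
  unfold wrC
  have hk' : (1 : ℝ) ≤ k := by exact_mod_cast hk
  have h3 : (2 * (k : ℝ) + 1) ^ (m + 1) ≤ (3 * (k : ℝ)) ^ (m + 1) := by
    apply pow_le_pow_left₀ (by positivity)
    linarith
  rw [mul_pow] at h3
  calc ((m : ℝ) + 2) * (2 * (2 * (k : ℝ) + 1) ^ (m + 1))
      ≤ ((m : ℝ) + 2) * (2 * (3 ^ (m + 1) * (k : ℝ) ^ (m + 1))) := by gcongr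
    _ = ((m : ℝ) + 2) * (2 * 3 ^ (m + 1)) * (k : ℝ) ^ (m + 1) := by ring

variable {i₀ : Fin (m + 2)} {S : (Fin (m + 2) → ℤ) → ℝ}

theorem wr_setup (hS : TwoAPI (m + 2) S) (hpos : ∀ x, 0 < S x)
    (hsph : ∀ n : ℕ, 1 ≤ n → 1 ≤ ∑ y ∈ sph (m + 2) n, S y)
    (h1 : ∀ x : Fin (m + 2) → ℤ, S x ≤ S (Pi.single i₀ (nrm x : ℤ)))
    (h2 : ∀ k : ℕ, S (Pi.single i₀ ((k : ℤ) + 1)) ≤ S (Pi.single i₀ (k : ℤ))) :
    WrA m (wra i₀ S) (wrC m) where
  anti k := by
    have := h2 k
    unfold wra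
    push_cast
    exact this
  pos k := hpos _
  le_one k := hS.le_one _
  C1pos := by
    unfold wrC
    positivity
  low k hk := by
    have h3 := hsph k hk
    have h4 : ∑ y ∈ sph (m + 2) k, S y ≤ ∑ y ∈ sph (m + 2) k, wra i₀ S k := by
      apply Finset.sum_le_sum
      intro y hy
      rw [wr_mem_sph] at hy
      have := h1 y
      rw [hy] at this
      exact this
    rw [Finset.sum_const, nsmul_eq_mul] at h4
    have h5 := mul_le_mul_of_nonneg_right (wr_sph_le (m := m) k hk) (hpos (Pi.single i₀ (k : ℤ))).le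
    have h6 : ((sph (m + 2) k).card : ℝ) * wra i₀ S k ≤
        wrC m * (k : ℝ) ^ (m + 1) * wra i₀ S k := h5
    rw [mul_assoc] at h6
    linarith

/-- lower bound for the sum over the cone -/
theorem wr_W_low (hpos : ∀ x, 0 < S x)
    (h4 : ∀ v : Fin (m + 2) → ℤ, Cone i₀ v → S (Pi.single i₀ (2 * v i₀)) ≤ S v) (R n : ℕ) :
    ∑ k ∈ Finset.Icc R n, ((k / (m + 2) + 1 : ℕ) : ℝ) ^ (m + 1) * wra i₀ S (2 * k) ≤
      ∑ v ∈ Rg i₀ R n, S v := by
  classical
  set P : ℕ → Finset (Fin (m + 2) → ℤ) := fun k => Fintype.piFinset fun j =>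
    if j = i₀ then ({(k : ℤ)} : Finset ℤ) else Finset.Icc 0 ((k / (m + 2) : ℕ) : ℤ) with hP
  have hmem : ∀ k, ∀ v ∈ P k, v i₀ = k ∧ ∀ j, j ≠ i₀ → 0 ≤ v j ∧ v j ≤ ((k / (m + 2) : ℕ) : ℤ) := by
    intro k v hv
    rw [hP] at hv
    simp only [Fintype.mem_piFinset] at hv
    refine ⟨?_, fun j hj => ?_⟩
    · have := hv i₀
      rw [if_pos rfl, Finset.mem_singleton] at this
      exact this
    · have := hv j
      rw [if_neg hj, Finset.mem_Icc] at this
      exact this
  have hcone : ∀ k, ∀ v ∈ P k, Cone i₀ v := by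
    intro k v hv
    obtain ⟨h5, h6⟩ := hmem k v hv
    refine ⟨fun j hj => (h6 j hj).1, ?_⟩
    rw [h5]
    calc ∑ j ∈ Finset.univ.erase i₀, v j
        ≤ ∑ j ∈ Finset.univ.erase i₀, ((k / (m + 2) : ℕ) : ℤ) := by
          apply Finset.sum_le_sum
          intro j hj
          exact (h6 j (Finset.ne_of_mem_erase hj)).2
      _ = ((m + 1) * (k / (m + 2)) : ℕ) := by
          rw [Finset.sum_const, Finset.card_erase_of_mem (Finset.mem_univ _), Finset.card_univ,
            Fintype.card_fin]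
          simp
      _ ≤ k := by
          have h7 := Nat.div_mul_le_self k (m + 2)
          have h8 : (m + 1) * (k / (m + 2)) ≤ k := by nlinarith
          exact_mod_cast h8
  have hdisj : ((Finset.Icc R n : Finset ℕ) : Set ℕ).PairwiseDisjoint P := by
    intro k _ l _ hkl
    rw [Function.onFun, Finset.disjoint_left]
    intro v hv hv'
    apply hkl
    have e1 := (hmem k v hv).1
    have e2 := (hmem l v hv').1
    rw [e1] at e2
    exact_mod_cast e2
  have hsub : (Finset.Icc R n).biUnion P ⊆ Rg i₀ R n := by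
    intro v hv
    rw [Finset.mem_biUnion] at hv
    obtain ⟨k, hk, hv⟩ := hv
    rw [Finset.mem_Icc] at hk
    obtain ⟨h5, h6⟩ := hmem k v hv
    rw [wr_mem_Rg]
    refine ⟨?_, hcone k v hv, by rw [h5]; exact_mod_cast hk.1⟩
    rw [wr_nrm_le]
    intro j
    by_cases hj : j = i₀
    · subst hj
      omega
    · have h7 := h6 j hj
      have h8 := Nat.div_le_self k (m + 2)
      omega
  calc ∑ k ∈ Finset.Icc R n, ((k / (m + 2) + 1 : ℕ) : ℝ) ^ (m + 1) * wra i₀ S (2 * k)
      ≤ ∑ k ∈ Finset.Icc R n, ∑ v ∈ P k, S v := by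
        apply Finset.sum_le_sum
        intro k _
        have hc : (P k).card = (k / (m + 2) + 1) ^ (m + 1) := by
          rw [hP]
          simp only
          rw [wr_card1, Finset.card_singleton, one_mul, Int.card_Icc]
          congr 1
        calc ((k / (m + 2) + 1 : ℕ) : ℝ) ^ (m + 1) * wra i₀ S (2 * k)
            = ∑ v ∈ P k, wra i₀ S (2 * k) := by
              rw [Finset.sum_const, hc, nsmul_eq_mul]
              push_cast
              rfl
          _ ≤ ∑ v ∈ P k, S v := by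
              apply Finset.sum_le_sum
              intro v hv
              have h5 := h4 v (hcone k v hv)
              rw [(hmem k v hv).1] at h5
              unfold wra
              push_cast
              exact h5
    _ = ∑ v ∈ (Finset.Icc R n).biUnion P, S v := (Finset.sum_biUnion hdisj).symm
    _ ≤ ∑ v ∈ Rg i₀ R n, S v :=
        Finset.sum_le_sum_of_subset_of_nonneg hsub fun v _ _ => (hpos v).le

/-- upper bound for the sum over a box -/
theorem wr_box (hA : WrA m (wra i₀ S) (wrC m)) (hle : ∀ x, S x ≤ 1)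
    (h1 : ∀ x : Fin (m + 2) → ℤ, S x ≤ S (Pi.single i₀ (nrm x : ℤ))) (N : ℕ) :
    ∑ x ∈ (Finset.Icc (fun _ => -(N : ℤ)) (fun _ => (N : ℤ)) : Finset (Fin (m + 2) → ℤ)), S x ≤
      2 * ((m : ℝ) + 2) + wrC m * wrg m (wra i₀ S) N := by
  have hmaps : ∀ x ∈ (Finset.Icc (fun _ => -(N : ℤ)) (fun _ => (N : ℤ)) :
      Finset (Fin (m + 2) → ℤ)), nrm x ∈ Finset.range (N + 1) := by
    intro x hx
    rw [wr_mem_box] at hx
    exact Finset.mem_range.2 (by omega)
  rw [← Finset.sum_fiberwise_of_maps_to hmaps]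
  have hfib : ∀ k ∈ Finset.range (N + 1), (Finset.Icc (fun _ => -(N : ℤ)) (fun _ => (N : ℤ)) :
      Finset (Fin (m + 2) → ℤ)).filter (fun x => nrm x = k) = sph (m + 2) k := by
    intro k hk
    rw [Finset.mem_range] at hk
    ext x
    rw [Finset.mem_filter, wr_mem_box, wr_mem_sph]
    exact ⟨fun h => h.2, fun h => ⟨by omega, h⟩⟩
  have hb : ∀ k ∈ Finset.range (N + 1), ∑ x ∈ sph (m + 2) k, S x ≤
      (if k = 0 then 2 * ((m : ℝ) + 2) else 0) + wrC m * ((k : ℝ) ^ (m + 1) * wra i₀ S k) := by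
    intro k _
    rcases Nat.eq_zero_or_pos k with hk | hk
    · subst hk
      rw [if_pos rfl]
      have h2 : ∑ x ∈ sph (m + 2) 0, S x ≤ ∑ x ∈ sph (m + 2) 0, (1 : ℝ) :=
        Finset.sum_le_sum fun x _ => hle x
      rw [Finset.sum_const, nsmul_eq_mul, mul_one] at h2
      have h3 := wr_card_sph (m := m) 0
      have h4 : ((sph (m + 2) 0).card : ℝ) ≤ ((m + 2) * (2 * (2 * 0 + 1) ^ (m + 1)) : ℕ) := by
        exact_mod_cast h3
      push_cast at h4
      rw [one_pow] at h4
      have h6 : 0 ≤ wrC m * (((0 : ℕ) : ℝ) ^ (m + 1) * wra i₀ S 0) :=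
        mul_nonneg hA.C1pos.le (mul_nonneg (by positivity) (hA.pos 0).le)
      linarith
    · rw [if_neg (by omega), zero_add]
      have h2 : ∑ y ∈ sph (m + 2) k, S y ≤ ∑ y ∈ sph (m + 2) k, wra i₀ S k := by
        apply Finset.sum_le_sum
        intro y hy
        rw [wr_mem_sph] at hy
        have := h1 y
        rw [hy] at this
        exact this
      rw [Finset.sum_const, nsmul_eq_mul] at h2
      have h3 := mul_le_mul_of_nonneg_right (wr_sph_le (m := m) k hk) (hA.pos k).le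
      rw [mul_assoc] at h3
      linarith
  refine (Finset.sum_le_sum (f := fun k => ∑ x ∈ (Finset.Icc (fun _ => -(N : ℤ))
    (fun _ => (N : ℤ)) : Finset (Fin (m + 2) → ℤ)).filter (fun x => nrm x = k), S x)
    fun k hk => ?_).trans (b := ∑ k ∈ Finset.range (N + 1), ((if k = 0 then 2 * ((m : ℝ) + 2)
      else 0) + wrC m * ((k : ℝ) ^ (m + 1) * wra i₀ S k))) ?_
  · rw [hfib k hk]
    exact hb k hk
  · rw [Finset.sum_add_distrib, ← Finset.mul_sum, Finset.sum_ite_eq' (Finset.range (N + 1)) 0,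
      if_pos (by simp)]
    exact le_rfl

theorem wr_cone_le {v : Fin (m + 2) → ℤ} (hv : Cone i₀ v) (j : Fin (m + 2)) :
    0 ≤ v j ∧ v j ≤ v i₀ := by
  by_cases hj : j = i₀
  · subst hj
    refine ⟨?_, le_rfl⟩
    exact (Finset.sum_nonneg fun l hl => hv.1 l (Finset.ne_of_mem_erase hl)).trans hv.2
  · refine ⟨hv.1 j hj, ?_⟩
    exact (Finset.single_le_sum (f := v) (fun l hl => hv.1 l (Finset.ne_of_mem_erase hl))
      (Finset.mem_erase.2 ⟨hj, Finset.mem_univ j⟩)).trans hv.2

/-- the boundary layer -/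
theorem wr_layer {u : Fin (m + 2) → ℤ} (hu : Cone i₀ u) (q : ℕ) (hq : u i₀ = q) (k : ℕ)
    (B : Finset (Fin (m + 2) → ℤ)) (hB : ∀ v ∈ B, Cone i₀ v ∧ v i₀ = k ∧ ¬ Cone i₀ (v - u)) :
    B.card ≤ (m + 2) * (q * (k + 1) ^ m) := by
  classical
  obtain ⟨j₁, hj₁⟩ : ∃ j₁ : Fin (m + 2), j₁ ≠ i₀ := exists_ne i₀
  set Q : Fin (m + 2) → Finset (Fin (m + 2) → ℤ) := fun j => Fintype.piFinset fun l =>
    if l = i₀ then ({(k : ℤ)} : Finset ℤ) else if l = j then Finset.Ico 0 (q : ℤ)
      else Finset.Icc 0 (k : ℤ) with hQ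
  have hQc : ∀ j, j ≠ i₀ → (Q j).card = q * (k + 1) ^ m := by
    intro j hj
    rw [hQ]
    simp only
    rw [wr_card2 i₀ j hj, Finset.card_singleton, one_mul, Int.card_Ico, Int.card_Icc]
    congr 1
  set Q' : Finset (Fin (m + 2) → ℤ) := B.filter fun v =>
    v i₀ - ∑ j ∈ Finset.univ.erase i₀, v j < q with hQ'
  have hQ'c : Q'.card ≤ q * (k + 1) ^ m := by
    rw [← hQc j₁ hj₁]
    apply Finset.card_le_card_of_injOn
      (fun v => Function.update v j₁ (v i₀ - ∑ j ∈ Finset.univ.erase i₀, v j))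
    · intro v hv
      rw [hQ', Finset.coe_filter] at hv
      obtain ⟨hv1, hv2⟩ := hv
      obtain ⟨h1, h2, -⟩ := hB v hv1
      rw [Finset.mem_coe, hQ]
      simp only [Fintype.mem_piFinset]
      intro l
      by_cases hl : l = i₀
      · subst hl
        rw [if_pos rfl, Finset.mem_singleton, Function.update_of_ne hj₁.symm]
        exact h2
      · rw [if_neg hl]
        by_cases hl1 : l = j₁
        · subst hl1
          rw [if_pos rfl, Function.update_self, Finset.mem_Ico]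
          have := h1.2
          exact ⟨by omega, hv2⟩
        · rw [if_neg hl1, Function.update_of_ne hl1, Finset.mem_Icc, ← h2]
          exact wr_cone_le h1 l
    · intro v hv v' hv' hvv
      simp only at hvv
      have h1 : ∀ l, l ≠ j₁ → v l = v' l := by
        intro l hl
        have := congrFun hvv l
        rwa [Function.update_of_ne hl, Function.update_of_ne hl] at this
      have h2 := congrFun hvv j₁
      rw [Function.update_self, Function.update_self] at h2
      have hmem : j₁ ∈ Finset.univ.erase i₀ := Finset.mem_erase.2 ⟨hj₁, Finset.mem_univ _⟩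
      rw [← Finset.add_sum_erase _ _ hmem, ← Finset.add_sum_erase _ _ hmem,
        h1 i₀ hj₁.symm] at h2
      have h3 : ∑ x ∈ (Finset.univ.erase i₀).erase j₁, v x =
          ∑ x ∈ (Finset.univ.erase i₀).erase j₁, v' x :=
        Finset.sum_congr rfl fun l hl => h1 l (Finset.ne_of_mem_erase hl)
      rw [h3] at h2
      funext l
      by_cases hl : l = j₁
      · subst hl
        omega
      · exact h1 l hl
  have hsub : B ⊆ (Finset.univ.erase i₀).biUnion Q ∪ Q' := by
    intro v hv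
    obtain ⟨h1, h2, h3⟩ := hB v hv
    rw [Finset.mem_union]
    by_cases h4 : v i₀ - ∑ j ∈ Finset.univ.erase i₀, v j < q
    · right
      rw [hQ', Finset.mem_filter]
      exact ⟨hv, h4⟩
    · left
      unfold Cone at h3
      rw [not_and_or] at h3
      have h5 : ¬ ∀ j, j ≠ i₀ → 0 ≤ (v - u) j := by
        rcases h3 with h3 | h3
        · exact h3
        · exfalso
          apply h3
          simp only [Pi.sub_apply, Finset.sum_sub_distrib]
          have h6 : 0 ≤ ∑ j ∈ Finset.univ.erase i₀, u j :=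
            Finset.sum_nonneg fun l hl => hu.1 l (Finset.ne_of_mem_erase hl)
          omega
      push Not at h5
      obtain ⟨j, hj, h6⟩ := h5
      rw [Finset.mem_biUnion]
      refine ⟨j, Finset.mem_erase.2 ⟨hj, Finset.mem_univ j⟩, ?_⟩
      rw [hQ]
      simp only [Fintype.mem_piFinset]
      intro l
      by_cases hl : l = i₀
      · subst hl
        rw [if_pos rfl, Finset.mem_singleton]
        exact h2
      · rw [if_neg hl]
        by_cases hl1 : l = j
        · subst hl1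
          rw [if_pos rfl, Finset.mem_Ico]
          rw [Pi.sub_apply] at h6
          have := (wr_cone_le h1 l).1
          have := (wr_cone_le hu l).2
          omega
        · rw [if_neg hl1, Finset.mem_Icc, ← h2]
          exact wr_cone_le h1 l
  calc B.card ≤ ((Finset.univ.erase i₀).biUnion Q ∪ Q').card := Finset.card_le_card hsub
    _ ≤ ((Finset.univ.erase i₀).biUnion Q).card + Q'.card := Finset.card_union_le _ _
    _ ≤ (∑ j ∈ Finset.univ.erase i₀, (Q j).card) + q * (k + 1) ^ m := by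
        gcongr
        exact Finset.card_biUnion_le
    _ = (∑ j ∈ Finset.univ.erase i₀, q * (k + 1) ^ m) + q * (k + 1) ^ m := by
        congr 1
        exact Finset.sum_congr rfl fun j hj => hQc j (Finset.ne_of_mem_erase hj)
    _ = (m + 2) * (q * (k + 1) ^ m) := by
        rw [Finset.sum_const, Finset.card_erase_of_mem (Finset.mem_univ _), Finset.card_univ,
          Fintype.card_fin, smul_eq_mul]
        have : m + 2 - 1 = m + 1 := by omega
        rw [this]
        ring

/-- the sum over a shifted cone -/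
theorem wr_extra (hA : WrA m (wra i₀ S) (wrC m)) (hS : TwoAPI (m + 2) S)
    (h1 : ∀ x : Fin (m + 2) → ℤ, S x ≤ S (Pi.single i₀ (nrm x : ℤ)))
    {u : Fin (m + 2) → ℤ} (hu : Cone i₀ u) (q : ℕ) (hq : u i₀ = q) (R : ℕ) (hR : 1 ≤ R) (n : ℕ)
    (hqn : q ≤ n) :
    ∑ v ∈ Rg i₀ R n, S (v - u) ≤ ∑ v ∈ Rg i₀ R n, S v +
      ((Fintype.piFinset fun _ : Fin (m + 2) => Finset.Ico (0 : ℤ) (R + q)).card : ℝ) +
      (((m : ℝ) + 2) * q * ((q : ℝ) + 2) ^ m) * wrf m (wra i₀ S) n := by
  classical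
  have hun : ∀ j, 0 ≤ u j ∧ u j ≤ q := by
    intro j
    have := wr_cone_le hu j
    rwa [hq] at this
  have hv : ∀ v ∈ Rg i₀ R n, Cone i₀ v ∧ (R : ℤ) ≤ v i₀ ∧ v i₀ ≤ n ∧ ∀ j, 0 ≤ v j ∧ v j ≤ v i₀ := by
    intro v hv
    rw [wr_mem_Rg] at hv
    obtain ⟨h2, h3, h4⟩ := hv
    refine ⟨h3, h4, ?_, wr_cone_le h3⟩
    have := wr_nrm_le.1 h2 i₀
    omega
  set B := (Rg i₀ R n).filter fun v => v - u ∈ Rg i₀ R n with hB
  set B1 := (Rg i₀ R n).filter fun v => v i₀ < ((R + q : ℕ) : ℤ) with hB1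
  set B2 := (Rg i₀ R n).filter fun v => ((R + q : ℕ) : ℤ) ≤ v i₀ ∧ ¬ Cone i₀ (v - u) with hB2
  -- splitting
  have hsplit : ∑ v ∈ Rg i₀ R n, S (v - u) ≤ ∑ v ∈ B, S (v - u) + ∑ v ∈ B1, S (v - u) +
      ∑ v ∈ B2, S (v - u) := by
    rw [hB, hB1, hB2, Finset.sum_filter, Finset.sum_filter, Finset.sum_filter,
      ← Finset.sum_add_distrib, ← Finset.sum_add_distrib]
    apply Finset.sum_le_sum
    intro v hvR
    have h0 := hS.nonneg (v - u)
    obtain ⟨h2, h3, h4, h5⟩ := hv v hvR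
    by_cases c1 : v - u ∈ Rg i₀ R n
    · rw [if_pos c1]
      split_ifs <;> linarith
    · by_cases c2 : v i₀ < ((R + q : ℕ) : ℤ)
      · rw [if_neg c1, if_pos c2]
        split_ifs <;> linarith
      · have c3 : ((R + q : ℕ) : ℤ) ≤ v i₀ ∧ ¬ Cone i₀ (v - u) := by
          refine ⟨by omega, fun hc => c1 ?_⟩
          rw [wr_mem_Rg]
          refine ⟨?_, hc, ?_⟩
          · rw [wr_nrm_le]
            intro j
            have := h5 j
            have := hun j
            rw [Pi.sub_apply]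
            omega
          · rw [Pi.sub_apply, hq]
            push_cast at c2
            omega
        rw [if_neg c1, if_neg c2, if_pos c3]
        linarith
  -- the main part
  have hmain : ∑ v ∈ B, S (v - u) ≤ ∑ v ∈ Rg i₀ R n, S v := by
    have e : ∑ v ∈ B, S (v - u) = ∑ x ∈ B.image (fun v => v - u), S x := by
      rw [Finset.sum_image]
      intro x _ y _ hxy
      exact sub_left_injective hxy
    rw [e]
    apply Finset.sum_le_sum_of_subset_of_nonneg
    · intro x hx
      rw [Finset.mem_image] at hx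
      obtain ⟨v, hvB, rfl⟩ := hx
      rw [hB, Finset.mem_filter] at hvB
      exact hvB.2
    · intro x _ _
      exact hS.nonneg x
  -- the points near the origin
  have hnear : ∑ v ∈ B1, S (v - u) ≤
      ((Fintype.piFinset fun _ : Fin (m + 2) => Finset.Ico (0 : ℤ) (R + q)).card : ℝ) := by
    have h2 : ∑ v ∈ B1, S (v - u) ≤ ∑ v ∈ B1, (1 : ℝ) :=
      Finset.sum_le_sum fun x _ => hS.le_one _
    rw [Finset.sum_const, nsmul_eq_mul, mul_one] at h2
    refine h2.trans ?_
    have h3 : B1 ⊆ Fintype.piFinset fun _ : Fin (m + 2) => Finset.Ico (0 : ℤ) (R + q) := by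
      intro v hvB
      rw [hB1, Finset.mem_filter] at hvB
      obtain ⟨-, -, -, h5⟩ := hv v hvB.1
      rw [Fintype.mem_piFinset]
      intro j
      rw [Finset.mem_Ico]
      have := h5 j
      have := hvB.2
      push_cast at this
      omega
    exact_mod_cast Finset.card_le_card h3
  -- the boundary layer
  have hlay : ∑ v ∈ B2, S (v - u) ≤
      (((m : ℝ) + 2) * q * ((q : ℝ) + 2) ^ m) * wrf m (wra i₀ S) n := by
    have hmaps : ∀ v ∈ B2, (v i₀).toNat ∈ Finset.Ico q (n + 1) := by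
      intro v hvB
      rw [hB2, Finset.mem_filter] at hvB
      obtain ⟨-, -, h4, -⟩ := hv v hvB.1
      have := hvB.2.1
      rw [Finset.mem_Ico]
      omega
    rw [← Finset.sum_fiberwise_of_maps_to hmaps]
    have hb : ∀ k ∈ Finset.Ico q (n + 1), ∑ v ∈ B2.filter (fun v => (v i₀).toNat = k), S (v - u) ≤
        (((m : ℝ) + 2) * q * ((q : ℝ) + 2) ^ m) * (((k - q : ℕ) : ℝ) ^ m * wra i₀ S (k - q)) := by
      intro k hk
      rw [Finset.mem_Ico] at hk
      have hanonneg : 0 ≤ (((m : ℝ) + 2) * q * ((q : ℝ) + 2) ^ m) *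
          (((k - q : ℕ) : ℝ) ^ m * wra i₀ S (k - q)) :=
        mul_nonneg (by positivity) (mul_nonneg (by positivity) (hA.pos _).le)
      rcases (B2.filter (fun v => (v i₀).toNat = k)).eq_empty_or_nonempty with hem | ⟨v₀, hv₀⟩
      · rw [hem, Finset.sum_empty]
        exact hanonneg
      · have hkR : R + q ≤ k := by
          rw [Finset.mem_filter, hB2, Finset.mem_filter] at hv₀
          have := hv₀.1.2.1
          have := hv₀.2
          omega
        have hterm : ∀ v ∈ B2.filter (fun v => (v i₀).toNat = k), S (v - u) ≤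
            wra i₀ S (k - q) := by
          intro v hvB
          rw [Finset.mem_filter, hB2, Finset.mem_filter] at hvB
          have h2 := h1 (v - u)
          have h3 : k - q ≤ nrm (v - u) := by
            have h4 := wr_natAbs_le (v - u) i₀
            rw [Pi.sub_apply, hq] at h4
            have := hvB.2
            omega
          exact h2.trans (wr_anti hA h3)
        have hcard : ((B2.filter (fun v => (v i₀).toNat = k)).card : ℝ) ≤
            ((m : ℝ) + 2) * (q * ((k : ℝ) + 1) ^ m) := by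
          have := wr_layer hu q hq k (B2.filter (fun v => (v i₀).toNat = k)) (by
            intro v hvB
            rw [Finset.mem_filter, hB2, Finset.mem_filter] at hvB
            obtain ⟨h2, h3, h4, -⟩ := hv v hvB.1.1
            exact ⟨h2, by have := hvB.2; omega, hvB.1.2.2⟩)
          have h5 : ((B2.filter (fun v => (v i₀).toNat = k)).card : ℝ) ≤
              ((m + 2) * (q * (k + 1) ^ m) : ℕ) := by exact_mod_cast this
          push_cast at h5
          exact h5
        have hpow : ((k : ℝ) + 1) ^ m ≤ ((q : ℝ) + 2) ^ m * ((k - q : ℕ) : ℝ) ^ m := by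
          rw [← mul_pow]
          apply pow_le_pow_left₀ (by positivity)
          have h6 : (1 : ℝ) ≤ ((k - q : ℕ) : ℝ) := by
            have : 1 ≤ k - q := by omega
            exact_mod_cast this
          have h7 : (k : ℝ) = ((k - q : ℕ) : ℝ) + q := by
            have : k = (k - q) + q := by omega
            exact_mod_cast this
          have h8 : (0 : ℝ) ≤ q := by positivity
          rw [h7]
          nlinarith
        calc ∑ v ∈ B2.filter (fun v => (v i₀).toNat = k), S (v - u)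
            ≤ ∑ v ∈ B2.filter (fun v => (v i₀).toNat = k), wra i₀ S (k - q) :=
              Finset.sum_le_sum hterm
          _ = ((B2.filter (fun v => (v i₀).toNat = k)).card : ℝ) * wra i₀ S (k - q) := by
              rw [Finset.sum_const, nsmul_eq_mul]
          _ ≤ (((m : ℝ) + 2) * (q * ((k : ℝ) + 1) ^ m)) * wra i₀ S (k - q) :=
              mul_le_mul_of_nonneg_right hcard (hA.pos _).le
          _ ≤ (((m : ℝ) + 2) * (q * (((q : ℝ) + 2) ^ m * ((k - q : ℕ) : ℝ) ^ m))) *
              wra i₀ S (k - q) := by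
              apply mul_le_mul_of_nonneg_right _ (hA.pos _).le
              gcongr
          _ = _ := by ring
    refine (Finset.sum_le_sum hb).trans ?_
    rw [← Finset.mul_sum]
    gcongr
    rw [Finset.sum_Ico_eq_sum_range]
    unfold wrf
    have e : ∀ j ∈ Finset.range (n + 1 - q), ((q + j - q : ℕ) : ℝ) ^ m * wra i₀ S (q + j - q) =
        (j : ℝ) ^ m * wra i₀ S j := by
      intro j _
      rw [Nat.add_sub_cancel_left]
    rw [Finset.sum_congr rfl e]
    apply Finset.sum_le_sum_of_subset_of_nonneg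
    · intro j hj
      rw [Finset.mem_range] at hj ⊢
      omega
    · intro j _ _
      exact mul_nonneg (by positivity) (hA.pos j).le
  linarith

end

theorem st_WR (hWA : ST_WA) : ST_WR := by
  intro d hd
  obtain ⟨m, rfl⟩ : ∃ m, d = m + 2 := ⟨d - 2, by omega⟩
  intro i₀ S hS hpos hsph R hR
  obtain ⟨h1, h2, -, h4, -, -⟩ := hWA (m + 2) hd i₀ S hS
  have hA : WrA m (wra i₀ S) (wrC m) := wr_setup hS hpos hsph h1 h2
  set g := wrg m (wra i₀ S) with hg
  set C3 : ℝ := 2 * (3 * ((m : ℝ) + 2)) ^ (m + 1) with hC3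
  have hC3pos : 0 < C3 := by positivity
  have hC1pos := hA.C1pos
  have hWl : ∀ n, g (2 * n + 1) ≤ C3 * (∑ v ∈ Rg i₀ R n, S v) + g (2 * R) := by
    intro n
    refine (wr_B_low hA R hR n).trans ?_
    have := mul_le_mul_of_nonneg_left (wr_W_low hpos h4 R n) hC3pos.le
    linarith
  have hgR := wr_g_nonneg hA (2 * R)
  have hgmono : Monotone g := wr_g_mono hA
  -- divergence
  have hA1 : Tendsto (fun n => ∑ v ∈ Rg i₀ R n, S v) atTop atTop := by
    have hlow : ∀ n : ℕ, (n : ℝ) * (1 / (wrC m * C3)) - g (2 * R) / C3 ≤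
        ∑ v ∈ Rg i₀ R n, S v := by
      intro n
      have h5 := hWl n
      have h6 := wr_g_low hA (2 * n + 1)
      push_cast at h6
      have h7 : (n : ℝ) ≤ wrC m * g (2 * n + 1) := by
        have : (0 : ℝ) ≤ n := by positivity
        linarith
      have h8 : (n : ℝ) ≤ wrC m * (C3 * (∑ v ∈ Rg i₀ R n, S v) + g (2 * R)) :=
        h7.trans (mul_le_mul_of_nonneg_left h5 hC1pos.le)
      rw [← sub_nonneg]
      have e : (∑ v ∈ Rg i₀ R n, S v) - ((n : ℝ) * (1 / (wrC m * C3)) - g (2 * R) / C3) =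
          (wrC m * (C3 * (∑ v ∈ Rg i₀ R n, S v) + g (2 * R)) - n) / (wrC m * C3) := by
        field_simp
        ring
      rw [e]
      exact div_nonneg (by linarith) (by positivity)
    refine tendsto_atTop_mono hlow ?_
    refine tendsto_atTop_add_const_right _ _ ?_
    exact Tendsto.atTop_mul_const (by positivity) tendsto_natCast_atTop_atTop
  refine ⟨hA1, ?_, ?_⟩
  · -- uniform bound
    refine ⟨2 * ((m : ℝ) + 2) + wrC m * C3 + wrC m * g (2 * R), ?_⟩
    filter_upwards [hA1.eventually_ge_atTop 1] with n hn u hu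
    rw [wr_mem_Rg] at hu
    have hbox := wr_box hA hS.le_one h1 (2 * n)
    have hsub : ∑ v ∈ Rg i₀ R n, S (v - u) ≤
        ∑ x ∈ (Finset.Icc (fun _ => -((2 * n : ℕ) : ℤ)) (fun _ => ((2 * n : ℕ) : ℤ)) :
          Finset (Fin (m + 2) → ℤ)), S x := by
      classical
      have e : ∑ v ∈ Rg i₀ R n, S (v - u) = ∑ x ∈ (Rg i₀ R n).image (fun v => v - u), S x := by
        rw [Finset.sum_image]
        intro x _ y _ hxy
        exact sub_left_injective hxy
      rw [e]
      apply Finset.sum_le_sum_of_subset_of_nonneg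
      · intro x hx
        rw [Finset.mem_image] at hx
        obtain ⟨v, hv, rfl⟩ := hx
        rw [wr_mem_Rg] at hv
        rw [wr_mem_box, wr_nrm_le]
        intro j
        have h5 := wr_nrm_le.1 hv.1 j
        have h6 := wr_nrm_le.1 hu.1 j
        rw [Pi.sub_apply]
        omega
      · intro x _ _
        exact hS.nonneg x
    refine hsub.trans (hbox.trans ?_)
    have h5 : g (2 * n) ≤ C3 * (∑ v ∈ Rg i₀ R n, S v) + g (2 * R) :=
      (hgmono (by omega)).trans (hWl n)
    have h6 := mul_le_mul_of_nonneg_left h5 hC1pos.le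
    have h7 : 2 * ((m : ℝ) + 2) ≤ 2 * ((m : ℝ) + 2) * (∑ v ∈ Rg i₀ R n, S v) :=
      le_mul_of_one_le_right (by positivity) hn
    have h8 : wrC m * g (2 * R) ≤ wrC m * g (2 * R) * (∑ v ∈ Rg i₀ R n, S v) :=
      le_mul_of_one_le_right (by positivity) hn
    rw [mul_add] at h6
    have e : (2 * ((m : ℝ) + 2) + wrC m * C3 + wrC m * g (2 * R)) * (∑ v ∈ Rg i₀ R n, S v) =
        2 * ((m : ℝ) + 2) * (∑ v ∈ Rg i₀ R n, S v) +
        wrC m * (C3 * (∑ v ∈ Rg i₀ R n, S v)) + wrC m * g (2 * R) * (∑ v ∈ Rg i₀ R n, S v) := by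
      ring
    rw [e]
    linarith
  · -- fixed shift
    intro u hu δ hδ
    obtain ⟨q, hq⟩ : ∃ q : ℕ, u i₀ = q := ⟨(u i₀).toNat, by
      have := (wr_cone_le hu i₀).1
      omega⟩
    set D : ℝ := ((m : ℝ) + 2) * q * ((q : ℝ) + 2) ^ m with hD
    have hD0 : 0 ≤ D := by positivity
    set C0 : ℝ := ((Fintype.piFinset fun _ : Fin (m + 2) => Finset.Ico (0 : ℤ) (R + q)).card : ℝ)
      with hC0
    obtain ⟨K, hK⟩ := exists_nat_ge (2 * D * C3 / δ + 1)
    have hK1 : 1 ≤ K := by
      have h5 : (1 : ℝ) ≤ K := by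
        have : 0 ≤ 2 * D * C3 / δ := by positivity
        linarith
      exact_mod_cast h5
    have hK0 : (0 : ℝ) < K := by exact_mod_cast hK1
    have hDK : D * C3 / K ≤ δ / 2 := by
      rw [div_le_iff₀ hK0]
      have h5 : 2 * D * C3 / δ ≤ K := by linarith
      rw [div_le_iff₀ hδ] at h5
      linarith
    set T : ℝ := C0 + D * (K : ℝ) ^ (m + 1) + D * (g (2 * R) / K) with hT
    filter_upwards [hA1.eventually_ge_atTop (2 * T / δ), eventually_ge_atTop q] with n hn hqn
    have h5 := wr_extra hA hS h1 hu q hq R hR n hqn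
    rw [← hD, ← hC0] at h5
    have h6 := wr_f_le hA K hK1 n
    have h7 : g n ≤ C3 * (∑ v ∈ Rg i₀ R n, S v) + g (2 * R) :=
      (hgmono (by omega)).trans (hWl n)
    have h8 : wrf m (wra i₀ S) n ≤ (K : ℝ) ^ (m + 1) +
        (C3 * (∑ v ∈ Rg i₀ R n, S v) + g (2 * R)) / K := by
      refine h6.trans ?_
      gcongr
    have h9 := mul_le_mul_of_nonneg_left h8 hD0
    have e : D * ((K : ℝ) ^ (m + 1) + (C3 * (∑ v ∈ Rg i₀ R n, S v) + g (2 * R)) / K) =
        D * (K : ℝ) ^ (m + 1) + D * C3 / K * (∑ v ∈ Rg i₀ R n, S v) + D * (g (2 * R) / K) := by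
      ring
    rw [e] at h9
    have hW0 : 0 ≤ ∑ v ∈ Rg i₀ R n, S v := Finset.sum_nonneg fun v _ => hS.nonneg v
    have h10 := mul_le_mul_of_nonneg_right hDK hW0
    have h11 : T ≤ δ / 2 * (∑ v ∈ Rg i₀ R n, S v) := by
      rw [div_le_iff₀ hδ] at hn
      linarith
    have e2 : (1 + δ) * (∑ v ∈ Rg i₀ R n, S v) = (∑ v ∈ Rg i₀ R n, S v) +
        δ / 2 * (∑ v ∈ Rg i₀ R n, S v) + δ / 2 * (∑ v ∈ Rg i₀ R n, S v) := by ring
    rw [e2]
    linarith

end IIC
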